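import Pool.Agent.R591.LB.Main

/-!
# MP_6f3246_lc, Q1

Let `𝒞` be the class of `ℵ₁`-dense linear orders all of whose points have countable cofinality and
countable coinitiality.  Assume Baumgartner's axiom and the conclusion of Moore's theorem for
Aronszajn lines (both follow from the proper forcing axiom).  Then `𝒞` has a basis with six
elements for the quasi-order of LOTS embeddability.
-/

set_option autoImplicit false

open Set Cardinal

namespace Pool.Agent.Results.MP_6f3246_lc.SixElementBasis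

open Pool.Agent.R591.LB

theorem result (hBA : BA) (hM : MooreBasis) :
    ∃ (B : Fin 6 → Type) (_ : ∀ i, LinearOrder (B i)), (∀ i, InClass (B i)) ∧
      ∀ (L : Type) [LinearOrder L], InClass L → ∃ i, LotsEmb (B i) L := by
  obtain ⟨X₀, hX₀⟩ := exists_denseReals
  obtain ⟨C, oC, hCC, hC⟩ := hM
  let B : Fin 6 → Type := fun i => match i with
    | 0 => X₀
    | 1 => Tr W
    | 2 => Tr Wᵒᵈ
    | 3 => Tr X₀
    | 4 => Tr C
    | 5 => Tr Cᵒᵈ
  let o : ∀ i, LinearOrder (B i) := fun i => match i with
    | 0 => (inferInstance : LinearOrder X₀)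
    | 1 => (inferInstance : LinearOrder (Tr W))
    | 2 => (inferInstance : LinearOrder (Tr Wᵒᵈ))
    | 3 => (inferInstance : LinearOrder (Tr X₀))
    | 4 => (inferInstance : LinearOrder (Tr C))
    | 5 => (inferInstance : LinearOrder (Tr Cᵒᵈ))
  refine ⟨B, o, ?_, ?_⟩
  · intro i
    match i with
    | 0 => exact inClass_real hX₀
    | 1 => exact inClass_Tr (Z := W) mk_W
    | 2 => exact inClass_Tr (Z := Wᵒᵈ) mk_W
    | 3 => exact inClass_Tr (Z := X₀) (mk_denseReals hX₀)
    | 4 => exact inClass_Tr (Z := C) hCC.1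
    | 5 => exact inClass_Tr (Z := Cᵒᵈ) hCC.1
  · intro L _ hL
    rcases main hBA hX₀ hCC hC hL with h | h | h | h | h | h
    · exact ⟨0, h⟩
    · exact ⟨1, h⟩
    · exact ⟨2, h⟩
    · exact ⟨3, h⟩
    · exact ⟨4, h⟩
    · exact ⟨5, h⟩

end Pool.Agent.Results.MP_6f3246_lc.SixElementBasis
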